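import Mathlib

set_option autoImplicit false

namespace Pool.H46Hull

open Set MeasureTheory

/-- `H` is a hull of `A` (both are subsets of the unit interval): `A ⊆ H` and the two sets have the
same Lebesgue outer measure. -/
def IsHull (A H : Set ℝ) : Prop := A ⊆ H ∧ H ⊆ Icc 0 1 ∧ volume H = volume A

/-- The `G_δ` subsets of `[0,1]`. -/
def GdeltaSets : Set (Set ℝ) := {A | A ⊆ Icc 0 1 ∧ IsGδ A}

/-- The Borel subsets of `[0,1]`. -/
def BorelSets : Set (Set ℝ) := {A | A ⊆ Icc 0 1 ∧ MeasurableSet A}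

/-- The `F_σ` subsets of `[0,1]`: countable unions of closed sets. -/
def FsigmaSets : Set (Set ℝ) :=
  {A | A ⊆ Icc 0 1 ∧ ∃ F : ℕ → Set ℝ, (∀ n, IsClosed (F n)) ∧ A = ⋃ n, F n}

/-- `φ` is a monotone `G_δ` hull operation on the class `D` of subsets of `[0,1]`. -/
def IsMonotoneGdeltaHullOp (D : Set (Set ℝ)) (φ : Set ℝ → Set ℝ) : Prop :=
  (∀ A ∈ D, φ A ∈ GdeltaSets ∧ IsHull A (φ A)) ∧
    ∀ A ∈ D, ∀ B ∈ D, A ⊆ B → φ A ⊆ φ B

/-- Every real function is continuous on a nonmeagre set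
(consistent relative to ZFC: Shelah, Sh:473). -/
def ContinuousOnNonmeagre : Prop :=
  ∀ f : ℝ → ℝ, ∃ D : Set ℝ, ¬ IsMeagre D ∧ ContinuousOn f D

/-- The two-variable weakening: for every `f : ℝ → ℝ` the function `(x, y) ↦ f x` is continuous on
a nonmeagre subset of the plane (this holds in the Cohen model). -/
def ContinuousOnNonmeagrePlane : Prop :=
  ∀ f : ℝ → ℝ, ∃ D : Set (ℝ × ℝ), ¬ IsMeagre D ∧ ContinuousOn (fun p : ℝ × ℝ => f p.1) D

end Pool.H46Hull
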