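import Mathlib
import Pool.Agent.H46.Hull.Defs

set_option autoImplicit false

namespace Pool.H46Hull

open Set MeasureTheory Topology

/-- The consequence of the continuity principles that is used. -/
def Star : Prop := ∀ f : ℝ → ℝ, ∃ C : Set ℝ, C.Countable ∧ C ⊆ range f ∧
  ∀ H : Set ℝ, IsGδ H → C ⊆ H → ¬ IsMeagre (f ⁻¹' H)

/-- General form of the use of continuity on a nonmeagre set. -/
theorem star_of_space {X : Type} [TopologicalSpace X] [SecondCountableTopology X]
    (p : X → ℝ) (hp : Continuous p) (hpo : IsOpenMap p) (f : ℝ → ℝ) (D : Set X)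
    (hD : ¬ IsMeagre D) (hf : ContinuousOn (fun x => f (p x)) D) :
    ∃ C : Set ℝ, C.Countable ∧ C ⊆ range f ∧
      ∀ H : Set ℝ, IsGδ H → C ⊆ H → ¬ IsMeagre (f ⁻¹' H) := by
  obtain ⟨E, hEc, hEd⟩ := TopologicalSpace.exists_countable_dense D
  set g : D → ℝ := fun d => f (p d) with hg
  have hgc : Continuous g := by
    have := continuousOn_iff_continuous_domRestrict.mp hf
    exact this
  refine ⟨g '' E, hEc.image _, ?_, ?_⟩
  · rintro _ ⟨d, _, rfl⟩
    exact ⟨p d, rfl⟩
  · intro H hH hCH hM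
    obtain ⟨U, hUo, hUH⟩ := isGδ_iff_eq_iInter_nat.mp hH
    have h1 : ∀ m, IsNowhereDense ({d : D | g d ∉ U m}) := by
      intro m
      have hcl : IsClosed {d : D | g d ∉ U m} := ((hUo m).isClosed_compl).preimage hgc
      rw [hcl.isNowhereDense_iff]
      have hdense : Dense ({d : D | g d ∉ U m}ᶜ) := by
        refine hEd.mono ?_
        intro d hd hd'
        apply hd'
        have : g d ∈ H := hCH ⟨d, hd, rfl⟩
        rw [hUH] at this
        exact mem_iInter.mp this m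
      exact interior_eq_empty_iff_dense_compl.mpr hdense
    have h2 : IsMeagre (⋃ m, (Subtype.val '' {d : D | g d ∉ U m} : Set X)) :=
      isMeagre_iUnion fun m => (h1 m).image_val.isMeagre
    have h3 : IsMeagre (p ⁻¹' (f ⁻¹' H)) := hM.preimage_of_isOpenMap hp hpo
    apply hD
    refine (h2.union h3).mono ?_
    intro x hx
    by_cases hxH : f (p x) ∈ H
    · exact Or.inr hxH
    · left
      rw [hUH] at hxH
      simp only [mem_iInter, not_forall] at hxH
      obtain ⟨m, hm⟩ := hxH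
      exact mem_iUnion.mpr ⟨m, ⟨⟨x, hx⟩, hm, rfl⟩⟩

theorem star_of_one (h : ContinuousOnNonmeagre) : Star := by
  intro f
  obtain ⟨D, hD, hf⟩ := h f
  exact star_of_space id continuous_id IsOpenMap.id f D hD hf

theorem star_of_two (h : ContinuousOnNonmeagrePlane) : Star := by
  intro f
  obtain ⟨D, hD, hf⟩ := h f
  exact star_of_space Prod.fst continuous_fst isOpenMap_fst f D hD hf

theorem countable_mem_Fsigma {C : Set ℝ} (hC : C.Countable) (hC1 : C ⊆ Icc 0 1) :
    C ∈ FsigmaSets := by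
  refine ⟨hC1, ?_⟩
  rcases C.eq_empty_or_nonempty with rfl | hne
  · exact ⟨fun _ => ∅, fun _ => isClosed_empty, by simp⟩
  · obtain ⟨g, hg⟩ := hC.exists_eq_range hne
    refine ⟨fun n => {g n}, fun n => isClosed_singleton, ?_⟩
    rw [hg]
    ext x
    simp [eq_comm]

theorem open_inter_mem_Fsigma {U : Set ℝ} (hU : IsOpen U) : U ∩ Icc 0 1 ∈ FsigmaSets := by
  refine ⟨inter_subset_right, ?_⟩
  obtain ⟨F, hFc, _, hFU, _⟩ := hU.exists_iUnion_isClosed
  refine ⟨fun n => F n ∩ Icc 0 1, fun n => (hFc n).inter isClosed_Icc, ?_⟩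
  rw [← hFU, iUnion_inter]

theorem exists_small_dense_open : ∃ G : ℕ → Set ℝ, (∀ n, IsOpen (G n)) ∧ (∀ n, Dense (G n)) ∧
    ∀ n, volume (G n) ≤ ENNReal.ofReal (1 / ((n : ℝ) + 1)) := by
  have h : ∀ n : ℕ, ∃ U : Set ℝ, range ((↑) : ℚ → ℝ) ⊆ U ∧ IsOpen U ∧
      volume U ≤ ENNReal.ofReal (1 / ((n : ℝ) + 1)) := by
    intro n
    have hpos : ENNReal.ofReal (1 / ((n : ℝ) + 1)) ≠ 0 := by
      have : (0 : ℝ) < 1 / ((n : ℝ) + 1) := by positivity
      simpa using this
    obtain ⟨U, hU1, hU2, hU3⟩ :=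
      Set.exists_isOpen_le_add (range ((↑) : ℚ → ℝ)) volume hpos
    refine ⟨U, hU1, hU2, ?_⟩
    have h0 : volume (range ((↑) : ℚ → ℝ)) = 0 := (countable_range _).measure_zero _
    rw [h0, zero_add] at hU3
    exact hU3
  choose G h1 h2 h3 using h
  exact ⟨G, h2, fun n => Rat.denseRange_cast.mono (h1 n), h3⟩

theorem no_hull_of_star (hS : Star) (D : Set (Set ℝ)) (hD : FsigmaSets ⊆ D) :
    ¬ ∃ φ, IsMonotoneGdeltaHullOp D φ := by
  rintro ⟨φ, hφ, hmono⟩
  obtain ⟨G, hGo, hGd, hGv⟩ := exists_small_dense_open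
  set O : ℕ → ℝ → Set ℝ := fun n c => ((fun x => x - c) ⁻¹' (G n)) ∩ Icc 0 1 with hO
  have hOopen : ∀ n c, IsOpen ((fun x : ℝ => x - c) ⁻¹' (G n)) := fun n c =>
    (hGo n).preimage (by fun_prop)
  have hOmem : ∀ n c, O n c ∈ D := fun n c => hD (open_inter_mem_Fsigma (hOopen n c))
  have hOvol : ∀ n c, volume (O n c) ≤ ENNReal.ofReal (1 / ((n : ℝ) + 1)) := by
    intro n c
    refine (measure_mono inter_subset_left).trans ?_
    have : volume ((fun x : ℝ => x - c) ⁻¹' (G n)) = volume (G n) := by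
      simp [sub_eq_add_neg]
    rw [this]
    exact hGv n
  -- the null set attached to `c`
  have hN : ∀ c, volume (⋂ n, φ (O n c)) = 0 := by
    intro c
    refine le_antisymm (ge_of_tendsto' (x := Filter.atTop)
      (f := fun n : ℕ => ENNReal.ofReal (1 / ((n : ℝ) + 1))) ?_ ?_) bot_le
    · have := tendsto_one_div_add_atTop_nhds_zero_nat (𝕜 := ℝ)
      have h2 := (ENNReal.continuous_ofReal.tendsto 0).comp this
      simpa [Function.comp_def] using h2
    · intro n
      refine (measure_mono (iInter_subset _ n)).trans ?_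
      rw [((hφ _ (hOmem n c)).2).2.2]
      exact hOvol n c
  have hk : ∀ c, ∃ k ∈ Icc (0 : ℝ) 1, k ∉ ⋂ n, φ (O n c) := by
    intro c
    by_contra hcon
    push Not at hcon
    have : volume (Icc (0 : ℝ) 1) ≤ 0 := (measure_mono hcon).trans (hN c).le
    simp at this
  choose k hk1 hk2 using hk
  obtain ⟨C, hCc, hCr, hC⟩ := hS k
  have hC1 : C ⊆ Icc 0 1 := by
    intro x hx
    obtain ⟨c, rfl⟩ := hCr hx
    exact hk1 c
  have hCD : C ∈ D := hD (countable_mem_Fsigma hCc hC1)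
  have hnm := hC (φ C) (hφ C hCD).1.2 (hφ C hCD).2.1
  -- the meagre set of bad translations
  have hbad : IsMeagre (⋃ x ∈ C, ⋃ n : ℕ, (fun c : ℝ => x - c) ⁻¹' (G n)ᶜ) := by
    refine isMeagre_biUnion hCc fun x hx => isMeagre_iUnion fun n => ?_
    have h1 : IsMeagre ((G n)ᶜ) := by
      have : G n ∈ residual ℝ := residual_of_dense_open (hGo n) (hGd n)
      rw [IsMeagre, compl_compl]
      exact this
    exact h1.preimage_of_isOpenMap (by fun_prop) (Homeomorph.subLeft x).isOpenMap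
  have : ∃ c ∈ k ⁻¹' (φ C), c ∉ ⋃ x ∈ C, ⋃ n : ℕ, (fun c : ℝ => x - c) ⁻¹' (G n)ᶜ := by
    by_contra hcon
    push Not at hcon
    exact hnm (hbad.mono hcon)
  obtain ⟨c, hc1, hc2⟩ := this
  apply hk2 c
  refine mem_iInter.mpr fun n => ?_
  have hsub : C ⊆ O n c := by
    intro x hx
    refine ⟨?_, hC1 hx⟩
    by_contra hxn
    exact hc2 (mem_biUnion hx (mem_iUnion.mpr ⟨n, hxn⟩))
  exact hmono C hCD (O n c) (hOmem n c) hsub hc1

end Pool.H46Hull
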