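import Mathlib
import Pool.Agent.H46.Hull.Defs

set_option autoImplicit false

namespace Pool.H46Hull

open Set MeasureTheory Topology Cardinal

/-- Every set has a `G_δ` superset of the same outer measure. -/
theorem exists_Gdelta_hull (S : Set ℝ) : ∃ H : Set ℝ, S ⊆ H ∧ IsGδ H ∧ volume H = volume S := by
  have h : ∀ n : ℕ, ∃ U : Set ℝ, S ⊆ U ∧ IsOpen U ∧
      volume U ≤ volume S + ENNReal.ofReal (1 / ((n : ℝ) + 1)) := by
    intro n
    have hpos : ENNReal.ofReal (1 / ((n : ℝ) + 1)) ≠ 0 := by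
      have : (0 : ℝ) < 1 / ((n : ℝ) + 1) := by positivity
      simpa using this
    obtain ⟨U, hU1, hU2, hU3⟩ := Set.exists_isOpen_le_add S volume hpos
    exact ⟨U, hU1, hU2, hU3⟩
  choose U h1 h2 h3 using h
  refine ⟨⋂ n, U n, subset_iInter h1, IsGδ.iInter_of_isOpen h2, le_antisymm ?_
    (measure_mono (subset_iInter h1))⟩
  refine ge_of_tendsto' (x := Filter.atTop)
    (f := fun n : ℕ => volume S + ENNReal.ofReal (1 / ((n : ℝ) + 1))) ?_ ?_
  · have := tendsto_one_div_add_atTop_nhds_zero_nat (𝕜 := ℝ)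
    have h2 := (ENNReal.continuous_ofReal.tendsto 0).comp this
    have h3 := h2.const_add (volume S)
    simpa [Function.comp_def] using h3
  · intro n
    exact (measure_mono (iInter_subset _ n)).trans (h3 n)

/-- A chosen `G_δ` hull (not necessarily inside `[0,1]`). -/
noncomputable def gh (S : Set ℝ) : Set ℝ := (exists_Gdelta_hull S).choose

theorem gh_spec (S : Set ℝ) : S ⊆ gh S ∧ IsGδ (gh S) ∧ volume (gh S) = volume S :=
  (exists_Gdelta_hull S).choose_spec

/-- The type of Borel subsets of the unit interval. -/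
abbrev Bor := {A : Set ℝ // A ⊆ Icc 0 1 ∧ MeasurableSet A}

theorem mk_bor (hCH : continuum.{0} = aleph 1) : #Bor ≤ aleph.{0} 1 := by
  rw [← hCH]
  have h1 : #Bor ≤ #{A : Set ℝ // MeasurableSet A} :=
    Cardinal.mk_le_of_injective (f := fun A : Bor => (⟨A.1, A.2.2⟩ : {A : Set ℝ // MeasurableSet A}))
      (by
        intro A B h
        have h2 := congrArg (fun S : {A : Set ℝ // MeasurableSet A} => S.1) h
        exact Subtype.ext h2)
  refine h1.trans ?_
  have h2 := MeasurableSpace.cardinal_measurableSet_le_continuum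
    (s := TopologicalSpace.countableBasis ℝ)
    (((TopologicalSpace.countable_countableBasis ℝ).le_aleph0).trans aleph0_le_continuum)
  have h3 : (inferInstance : MeasurableSpace ℝ) =
      MeasurableSpace.generateFrom (TopologicalSpace.countableBasis ℝ) :=
    (borel_eq_generateFrom_of_subbasis (TopologicalSpace.isBasis_countableBasis ℝ).eq_generateFrom ▸
      (BorelSpace.measurable_eq (α := ℝ)))
  rw [← h3] at h2
  exact h2

theorem exists_wo (hCH : continuum.{0} = aleph 1) :
    ∃ r : Bor → Bor → Prop, IsWellOrder Bor r ∧ ∀ a, {b | r b a}.Countable := by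
  obtain ⟨r, wo, hr⟩ := Cardinal.exists_ord_eq Bor
  refine ⟨r, wo, fun a => ?_⟩
  have h1 := Cardinal.card_typein_lt a hr
  rw [Ordinal.card_typein] at h1
  have h2 := h1.trans_le (mk_bor hCH)
  rw [← succ_aleph0, Order.lt_succ_iff] at h2
  exact le_aleph0_iff_set_countable.mp h2

section rec

variable (r : Bor → Bor → Prop) [wo : IsWellOrder Bor r]

/-- The recursion. -/
noncomputable def phi : Bor → Set ℝ :=
  (wo.toIsWellFounded.wf).fix fun a ih =>
    gh (a.1 ∪ ⋃ b, ⋃ (h : r b a), ⋃ (_ : b.1 ⊆ a.1), ih b h) ∩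
      (Icc 0 1 ∩ ⋂ c, ⋂ (h : r c a), ⋂ (_ : a.1 ⊆ c.1), ih c h)

theorem phi_eq (a : Bor) : phi r a =
    gh (a.1 ∪ ⋃ b, ⋃ (_ : r b a), ⋃ (_ : b.1 ⊆ a.1), phi r b) ∩
      (Icc 0 1 ∩ ⋂ c, ⋂ (_ : r c a), ⋂ (_ : a.1 ⊆ c.1), phi r c) := by
  rw [phi, WellFounded.fix_eq]

structure Good (a : Bor) : Prop where
  gd : IsGδ (phi r a)
  sub : a.1 ⊆ phi r a
  sub1 : phi r a ⊆ Icc 0 1
  null : volume (phi r a \ a.1) = 0
  low : ∀ b, r b a → b.1 ⊆ a.1 → phi r b ⊆ phi r a
  high : ∀ c, r c a → a.1 ⊆ c.1 → phi r a ⊆ phi r c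

theorem vol_fin {A : Set ℝ} (h : A ⊆ Icc 0 1) : volume A ≠ ⊤ := by
  refine ne_top_of_le_ne_top ?_ (measure_mono h)
  simp

theorem good (hr : ∀ a, {b | r b a}.Countable) (a : Bor) : Good r a := by
  induction a using (wo.toIsWellFounded.wf).induction with
  | _ a ih =>
  set L : Set ℝ := a.1 ∪ ⋃ b, ⋃ (_ : r b a), ⋃ (_ : b.1 ⊆ a.1), phi r b with hL
  set U : Set ℝ := Icc 0 1 ∩ ⋂ c, ⋂ (_ : r c a), ⋂ (_ : a.1 ⊆ c.1), phi r c with hU
  have heq : phi r a = gh L ∩ U := phi_eq r a
  have hUgd : IsGδ U := by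
    refine IsGδ.inter isClosed_Icc.isGδ ?_
    refine IsGδ.biInter (hr a) fun c hc => ?_
    by_cases h : a.1 ⊆ c.1
    · simpa [h] using (ih c hc).gd
    · simp [h]
  have hLnull : volume (L \ a.1) = 0 := by
    have : L \ a.1 ⊆ ⋃ b ∈ {b | r b a ∧ b.1 ⊆ a.1}, (phi r b \ b.1) := by
      intro x hx
      rcases hx.1 with h | h
      · exact absurd h hx.2
      · simp only [mem_iUnion] at h
        obtain ⟨b, hb, hba, hxb⟩ := h
        exact mem_biUnion (show b ∈ {b | r b a ∧ b.1 ⊆ a.1} from ⟨hb, hba⟩)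
          ⟨hxb, fun h => hx.2 (hba h)⟩
    refine measure_mono_null this ?_
    refine (measure_biUnion_null_iff ((hr a).mono fun b hb => hb.1)).mpr ?_
    intro b hb
    exact (ih b hb.1).null
  have haU : a.1 ⊆ U := by
    refine subset_inter a.2.1 ?_
    refine subset_iInter fun c => subset_iInter fun hc => subset_iInter fun hac => ?_
    exact hac.trans (ih c hc).sub
  have hvolL : volume L = volume a.1 := by
    refine le_antisymm ?_ (measure_mono subset_union_left)
    calc volume L ≤ volume (a.1 ∪ (L \ a.1)) := measure_mono (by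
          intro x hx
          by_cases h : x ∈ a.1
          · exact Or.inl h
          · exact Or.inr ⟨hx, h⟩)
      _ ≤ volume a.1 + volume (L \ a.1) := measure_union_le _ _
      _ = volume a.1 := by rw [hLnull, add_zero]
  refine ⟨?_, ?_, ?_, ?_, ?_, ?_⟩
  · rw [heq]
    exact (gh_spec L).2.1.inter hUgd
  · rw [heq]
    exact subset_inter (subset_union_left.trans (gh_spec L).1) haU
  · rw [heq]
    exact inter_subset_right.trans inter_subset_left
  · have h1 : volume (gh L \ a.1) = 0 := by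
      have hsub : a.1 ⊆ gh L := subset_union_left.trans (gh_spec L).1
      rw [measure_sdiff hsub a.2.2.nullMeasurableSet (vol_fin a.2.1), (gh_spec L).2.2, hvolL]
      simp
    refine measure_mono_null ?_ h1
    rw [heq]
    exact sdiff_subset_sdiff_left inter_subset_left
  · intro b hb hba
    rw [heq]
    refine subset_inter ?_ ?_
    · refine Subset.trans ?_ (gh_spec L).1
      refine Subset.trans ?_ subset_union_right
      intro x hx
      simp only [mem_iUnion]
      exact ⟨b, hb, hba, hx⟩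
    · refine subset_inter (ih b hb).sub1 ?_
      refine subset_iInter fun c => subset_iInter fun hc => subset_iInter fun hac => ?_
      have hbc : b.1 ⊆ c.1 := hba.trans hac
      by_cases h1 : r b c
      · exact (ih c hc).low b h1 hbc
      · by_cases h2 : r c b
        · exact (ih b hb).high c h2 hbc
        · have : b = c := wo.toTrichotomous.trichotomous b c h1 h2
          rw [this]
  · intro c hc hac
    rw [heq]
    intro x hx
    have := hx.2.2
    simp only [mem_iInter] at this
    exact this c hc hac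

theorem phi_mono (hr : ∀ a, {b | r b a}.Countable) (a b : Bor) (hab : a.1 ⊆ b.1) :
    phi r a ⊆ phi r b := by
  by_cases h1 : r a b
  · exact (good r hr b).low a h1 hab
  · by_cases h2 : r b a
    · exact (good r hr a).high b h2 hab
    · have : a = b := wo.toTrichotomous.trichotomous a b h1 h2
      rw [this]

end rec

theorem hull_of_CH (hCH : continuum.{0} = aleph 1) (D : Set (Set ℝ)) (hD : D ⊆ BorelSets) :
    ∃ φ, IsMonotoneGdeltaHullOp D φ := by
  classical
  obtain ⟨r, wo, hr⟩ := exists_wo hCH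
  refine ⟨fun A => if h : A ∈ BorelSets then phi r ⟨A, h⟩ else ∅, ?_, ?_⟩
  · intro A hA
    have hAB : A ∈ BorelSets := hD hA
    have g := good r hr ⟨A, hAB⟩
    simp only [dif_pos hAB]
    refine ⟨⟨g.sub1, g.gd⟩, g.sub, g.sub1, ?_⟩
    refine le_antisymm ?_ (measure_mono g.sub)
    calc volume (phi r ⟨A, hAB⟩) ≤ volume (A ∪ (phi r ⟨A, hAB⟩ \ A)) := measure_mono (by
          intro x hx
          by_cases h : x ∈ A
          · exact Or.inl h
          · exact Or.inr ⟨hx, h⟩)
      _ ≤ volume A + volume (phi r ⟨A, hAB⟩ \ A) := measure_union_le _ _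
      _ = volume A := by
        rw [show volume (phi r ⟨A, hAB⟩ \ A) = 0 from g.null, add_zero]
  · intro A hA B hB hAB
    have h1 : A ∈ BorelSets := hD hA
    have h2 : B ∈ BorelSets := hD hB
    simp only [dif_pos h1, dif_pos h2]
    exact phi_mono r hr ⟨A, h1⟩ ⟨B, h2⟩ hAB

end Pool.H46Hull
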